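import Pool.Agent.Y120.H.FamR
import Pool.Agent.Y120.H.Res
import Pool.Agent.Y916.Al.Ev

/-!
# Project AF: complex values of the functions
-/

set_option autoImplicit false
set_option maxHeartbeats 400000

open PowerSeries Pool.Agent.Y113 Pool.Agent.Y120.GF Pool.Agent.Y120.GH Pool.Agent.Y916.Al

namespace Pool.Agent.Y547.AF

lemma cvc_of_cv {f : ℚ⟦X⟧} {ξ : ℂ} (h : Cv ‖ξ‖ f) : Cvc (1 / ξ) f := by
  unfold Cv at h
  unfold Cvc
  refine h.congr fun m => ?_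
  rw [Complex.norm_ratCast, norm_div, norm_one]

lemma evc_ou (f : ℚ⟦X⟧) (ξ : ℂ) : evc (1 / ξ) f = ou (cx f) ξ := by
  unfold evc ou inn
  refine tsum_congr fun m => ?_
  rw [coeff_cx]

lemma evc_sf {f : ℚ⟦X⟧} {C : ℝ} (hC : 0 ≤ C) (hf : ∀ m, |((coeff m f : ℚ) : ℝ)| ≤ C ^ (m + 1)) (g : ℕ) {ξ : ℂ}
    (h : (g : ℝ) + C < ‖ξ‖) : evc (1 / ξ) (sf g f) = evc (1 / (ξ - g)) f := by
  rw [evc_ou, evc_ou, ou_shift hC hf g h]

lemma evc_lg {g : ℕ} {ξ : ℂ} (h : (g : ℝ) < ‖ξ‖) : evc (1 / ξ) (lg g) = Complex.log (1 - g / ξ) := by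
  have h0 : 0 < ‖ξ‖ := lt_of_le_of_lt (by positivity) h
  have h1 : ‖(g : ℂ) / ξ‖ < 1 := by
    rw [norm_div, Complex.norm_natCast, div_lt_one h0]
    exact h
  have h2 := (Complex.hasSum_taylorSeries_neg_log h1).neg
  rw [neg_neg] at h2
  unfold evc
  rw [← h2.tsum_eq]
  refine tsum_congr fun m => ?_
  rw [lg, coeff_mk]
  push_cast
  rw [div_pow, div_pow, one_pow]
  ring

lemma evc_yQ {g : ℕ} {ξ : ℂ} (h : (g : ℝ) < ‖ξ‖) (e : ℕ) :
    evc (1 / ξ) (yQ g e) = 1 / (e.factorial : ℂ) * Complex.log (1 - g / ξ) ^ e := by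
  have h1 : Cvc (1 / ξ) (lg g) := cvc_of_cv (lg_cv h)
  rw [yQ, Cvc.ev_mul (Cvc.C _) (h1.pow e), Pool.Agent.Y916.Al.ev_C, h1.ev_pow, evc_lg h]
  push_cast
  ring

lemma evc_Fg {κ : Type} {n : ℕ} {y : κ → ℚ⟦X⟧} {C : ℝ} (hC : 1 ≤ C)
    (hy : ∀ i m, |((coeff m (y i) : ℚ) : ℝ)| ≤ C ^ (m + 1)) {g : ℕ} {ξ : ℂ} (h : (g : ℝ) + C < ‖ξ‖)
    (b : κ × Fin (n + 1)) : evc (1 / ξ) (Fg (n + 1) y g b) =
      evc (1 / (ξ - g)) (y b.1) * (1 / ((b.2 : ℕ).factorial : ℂ) * Complex.log (1 - g / ξ) ^ (b.2 : ℕ)) := by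
  have hg : (g : ℝ) < ‖ξ‖ := by linarith
  have h0 : 0 < ‖ξ‖ := lt_of_le_of_lt (by positivity) hg
  have h1 : Cvc (1 / ξ) (sf g (y b.1)) := cvc_of_cv (cx_sf_cv (by linarith) (hy _) g h)
  have h2 : Cvc (1 / ξ) (yQ g b.2) := by
    rw [yQ]
    exact (Cvc.C _).mul ((cvc_of_cv (lg_cv hg)).pow _)
  rw [Fg, Cvc.ev_mul h1 h2, evc_yQ hg, evc_sf (by linarith) (hy _) g h]

/-! ## The denominators -/

lemma aeval_PgC (g : ℕ) (x : ℂ) : Polynomial.aeval x (Pg g) = 1 - g * x := by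
  simp [Pg]

lemma aeval_HmC (g : ℕ) {q : ℕ} {T : Polynomial ℤ} (hq : T.natDegree ≤ q) {x : ℂ} (hx : 1 - g * x ≠ 0) :
    Polynomial.aeval x (Hm g q T) = (1 - g * x) ^ q * Polynomial.aeval (x / (1 - g * x)) T := by
  have h1 : Polynomial.aeval (x / (1 - g * x)) T = ∑ l ∈ Finset.range (q + 1), (T.coeff l : ℂ) * (x / (1 - g * x)) ^ l := by
    rw [Polynomial.aeval_eq_sum_range' (Nat.lt_succ_of_le hq)]
    refine Finset.sum_congr rfl fun l _ => ?_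
    rw [zsmul_eq_mul]
  rw [h1, Hm, map_sum, Finset.mul_sum]
  refine Finset.sum_congr rfl fun l hl => ?_
  rw [Finset.mem_range] at hl
  rw [map_mul, map_mul, map_pow, map_pow, aeval_PgC, Polynomial.aeval_X, Polynomial.aeval_C]
  have h2 : (1 - (g : ℂ) * x) ^ q = (1 - g * x) ^ (q - l) * (1 - g * x) ^ l := by
    rw [← pow_add]
    congr 1
    omega
  rw [h2, div_pow]
  have h3 : (1 - (g : ℂ) * x) ^ l ≠ 0 := pow_ne_zero _ hx
  rw [eq_intCast]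
  field_simp

/-- no roots near zero -/
lemma no_rootsC {T : Polynomial ℤ} (hT : T ≠ 0) : ∃ c : ℕ, ∀ u : ℂ, (c : ℝ) < ‖u‖ → Polynomial.aeval (1 / u) T ≠ 0 := by
  classical
  set P : Polynomial ℂ := T.map (Int.castRingHom ℂ) with hP
  have hP0 : P ≠ 0 := (Polynomial.map_ne_zero_iff (Int.castRingHom ℂ).injective_int).2 hT
  obtain ⟨c, hc⟩ := exists_nat_ge (∑ s ∈ P.roots.toFinset, ‖1 / s‖)
  refine ⟨c, fun u hu h => ?_⟩
  have hroot : (1 / u) ∈ P.roots.toFinset := by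
    rw [Multiset.mem_toFinset, Polynomial.mem_roots hP0, Polynomial.IsRoot.def, hP, Polynomial.eval_map]
    rw [Polynomial.aeval_def] at h
    exact h
  have h1 := Finset.single_le_sum (f := fun s : ℂ => ‖1 / s‖) (fun _ _ => norm_nonneg _) hroot
  rw [one_div_one_div] at h1
  linarith

lemma TL_neC (g : ℕ) {ξ : ℂ} (h : (g : ℝ) + 1 < ‖ξ‖) : Polynomial.aeval (1 / ξ) (TL g) ≠ 0 := by
  have h0 : ξ ≠ 0 := by
    rintro rfl
    rw [norm_zero] at h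
    have : (0 : ℝ) ≤ g := by positivity
    linarith
  have h1 : ξ - g ≠ 0 := by
    intro h1
    rw [sub_eq_zero.1 h1, Complex.norm_natCast] at h
    linarith
  have h2 : ξ - (g + 1) ≠ 0 := by
    intro h2
    have h3 : ξ = ((g + 1 : ℕ) : ℂ) := by
      push_cast
      exact sub_eq_zero.1 h2
    rw [h3, Complex.norm_natCast] at h
    push_cast at h
    linarith
  have h3 : Polynomial.aeval (1 / ξ) (TL g) = 1 / ξ * ((ξ - g) / ξ) * ((ξ - (g + 1)) / ξ) := by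
    have e1 : ∀ α β : ℤ, Polynomial.aeval (1 / ξ) (lf α β) = (α : ℂ) + β * (1 / ξ) := by
      intro α β
      unfold lf
      rw [map_add, map_mul, Polynomial.aeval_C, Polynomial.aeval_C, Polynomial.aeval_X, eq_intCast, eq_intCast]
    unfold TL
    rw [map_mul, map_mul, e1, e1, e1]
    push_cast
    field_simp
    ring
  rw [h3]
  exact mul_ne_zero (mul_ne_zero (one_div_ne_zero h0) (div_ne_zero h1 h0)) (div_ne_zero h2 h0)

lemma Tg_neC {T : Polynomial ℤ} (hT : T ≠ 0) {q : ℕ} (hq : T.natDegree ≤ q) : ∃ c : ℕ, ∀ (g : ℕ) (ξ : ℂ),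
    (g : ℝ) + c < ‖ξ‖ → Polynomial.aeval (1 / ξ) (Tg q T g) ≠ 0 := by
  obtain ⟨c, hc⟩ := no_rootsC hT
  refine ⟨c + 1, fun g ξ h => ?_⟩
  push_cast at h
  have hg0 : (0 : ℝ) ≤ g := by positivity
  have hc0 : (0 : ℝ) ≤ c := by positivity
  have h0 : ξ ≠ 0 := by
    rintro rfl
    rw [norm_zero] at h
    linarith
  have hn : (c : ℝ) < ‖ξ - g‖ := by
    have h1 := norm_sub_norm_le ξ (g : ℂ)
    rw [Complex.norm_natCast] at h1
    linarith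
  have hx : ξ - g ≠ 0 := by
    intro h1
    rw [h1, norm_zero] at hn
    linarith
  have h4 : (1 : ℂ) - g * (1 / ξ) = (ξ - g) / ξ := by field_simp
  have h1 : (1 : ℂ) - g * (1 / ξ) ≠ 0 := by
    rw [h4]
    exact div_ne_zero hx h0
  rw [Tg, map_mul, map_mul, map_pow, aeval_PgC, aeval_HmC g hq h1]
  refine mul_ne_zero (mul_ne_zero (pow_ne_zero _ h1) (mul_ne_zero (pow_ne_zero _ h1) ?_)) (TL_neC g (by linarith))
  have h2 : (1 : ℂ) / ξ / (1 - g * (1 / ξ)) = 1 / (ξ - g) := by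
    rw [h4]
    field_simp
  rw [h2]
  exact hc _ hn

end Pool.Agent.Y547.AF
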