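import Pool.Agent.Y118.UL.Fam
import Pool.Agent.Y547.AF.Cx
import Pool.Agent.Y916.Al.GK

/-!
# Project AF: the space generated by the values of all words at an algebraic point
-/

set_option autoImplicit false
set_option maxHeartbeats 400000

open PowerSeries Pool.Agent.Y113 Pool.Agent.Y120.GF Pool.Agent.Y120.GH Pool.Agent.Y916.Al Pool.Agent.Y118.UL

namespace Pool.Agent.Y547.AF

lemma li_ext {K : Type} [Field K] [Algebra ℚ K] {ι : Type} {n : ℕ} {a : Fin n → ι → ℚ}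
    (ha : LinearIndependent ℚ a) : LinearIndependent K (fun r j => algebraMap ℚ K (a r j)) := by
  rw [Fintype.linearIndependent_iff] at ha ⊢
  intro c hc r
  rw [← Module.forall_dual_apply_eq_zero_iff ℚ]
  intro φ
  refine ha (fun r => φ (c r)) ?_ r
  funext j
  have h1 := congrFun hc j
  simp only [Finset.sum_apply, Pi.smul_apply, smul_eq_mul, Pi.zero_apply] at h1 ⊢
  have h2 := congrArg φ h1
  rw [map_sum, map_zero] at h2
  rw [← h2]
  refine Finset.sum_congr rfl fun r _ => ?_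
  rw [mul_comm (c r), ← Algebra.smul_def, map_smul, smul_eq_mul, mul_comm]

lemma pt_inv {K : IntermediateField ℚ ℂ} {ξ : K} {X : ℝ} (hξ : ξ ≠ 0) (h : Pt K ξ X) : Pt K (1 / ξ) X := by
  obtain ⟨u, w, hu, hw, hw0, rfl, hσ⟩ := h
  have hu0 : u ≠ 0 := by
    rintro rfl
    exact hξ (zero_div _)
  exact ⟨w, u, hw, hu, hu0, one_div_div u w, fun σ => ⟨(hσ σ).2, (hσ σ).1⟩⟩

theorem liC {σ : Type} [Fintype σ] {F : ℕ → σ → ℚ⟦X⟧} {Tg : ℕ → Polynomial ℤ} {q₀ E₀ c : ℕ} {b₀ : σ}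
    (one : ∀ g, F g b₀ = 1) (sys : ∀ g : ℕ, GSys q₀ (((g : ℝ) + 2) ^ E₀) (Tg g) (F g))
    (ne : ∀ (g : ℕ) (ξ : ℂ), (g : ℝ) + c < ‖ξ‖ → Polynomial.aeval (1 / ξ) (Tg g) ≠ 0) (N d A : ℕ) :
    ∃ E : ℕ, ∀ (H : ℕ) (K : IntermediateField ℚ ℂ) (ξ : K) (X : ℝ), FiniteDimensional ℚ K →
      Module.finrank ℚ K ≤ d → Pt K ξ X → ((H : ℝ) + 2) ^ E ≤ ‖(ξ : ℂ)‖ → X ≤ ‖(ξ : ℂ)‖ ^ A →
      ∀ g : Fin N → ℕ, (∀ l, g l ≤ H) →
      LinearIndependent (Polynomial ℚ) (fun b : Fin N → σ => ∏ l, F (g l) (b l)) →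
      ∀ (n : ℕ) (a : Fin n → (Fin N → σ) → ℚ), LinearIndependent ℚ a →
      (∀ i, ∑ b, ((a i b : ℚ) : ℂ) * ∏ l, evc (1 / (ξ : ℂ)) (F (g l) (b l)) = 0) →
      2 * A * d * (Fintype.card (Fin N → σ) - n) ≤ Fintype.card (Fin N → σ) → False := by
  classical
  obtain ⟨q, E₁, hE₁⟩ := gsys_multi F Tg q₀ E₀ sys N
  obtain ⟨E₂, hE₂⟩ := t_GK d A (Fintype.card (Fin N → σ)) q
  refine ⟨(max E₁ 1 + 1) * max E₂ 1 + (E₀ + 2) + (c + 1), ?_⟩
  intro H K ξ X hK hd hPt htR hXA g hgH hli n a ha hrel hcard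
  set t : ℝ := ‖(ξ : ℂ)‖ with ht
  have hH0 : (0 : ℝ) ≤ (H : ℝ) := by positivity
  have hH2 : (2 : ℝ) ≤ (H : ℝ) + 2 := by linarith
  have hH1 : (1 : ℝ) ≤ (H : ℝ) + 2 := by linarith
  have hb1 : ((H : ℝ) + 2) ^ ((max E₁ 1 + 1) * max E₂ 1) ≤ t :=
    (pow_le_pow_right₀ hH1 (by omega)).trans htR
  have hb2 : ((H : ℝ) + 2) ^ (E₀ + 2) ≤ t := (pow_le_pow_right₀ hH1 (by omega)).trans htR
  have hHt' : (H : ℝ) + c < t := by
    have h1 : ((H : ℝ) + 2) ^ (c + 1) ≤ t := (pow_le_pow_right₀ hH1 (by omega)).trans htR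
    have h2 : c < 2 ^ c := Nat.lt_two_pow_self
    have h3 : 2 ^ c ≤ (H + 2) ^ c := Nat.pow_le_pow_left (by omega) _
    have h4 : (c + 1) * (H + 2) ≤ (H + 2) ^ (c + 1) := by
      rw [pow_succ]
      exact Nat.mul_le_mul_right _ (by omega)
    have h5 : H + c < (c + 1) * (H + 2) := by nlinarith
    have h6 : ((H + c : ℕ) : ℝ) < (((H + 2) ^ (c + 1) : ℕ) : ℝ) := by exact_mod_cast h5.trans_le h4
    push_cast at h6
    linarith
  have ht0 : (0 : ℝ) < t := by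
    have : (0 : ℝ) ≤ (c : ℝ) := by positivity
    linarith
  have hξ0 : (ξ : ℂ) ≠ 0 := norm_pos_iff.1 ht0
  have hξ : ξ ≠ 0 := by
    rintro rfl
    exact hξ0 rfl
  have hx : (((1 / ξ : K)) : ℂ) = 1 / (ξ : ℂ) := by
    push_cast
    rfl
  have hxn : ‖(((1 / ξ : K)) : ℂ)‖ = 1 / t := by
    rw [hx, norm_div, norm_one]
  have hsys := (hE₁ H g hgH).mono le_rfl (pow_le_pow_right₀ hH1 (le_max_left E₁ 1))
  have hC : (2 * ((H : ℝ) + 2) ^ (max E₁ 1)) ^ E₂ ≤ t := by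
    have h1 : (2 * ((H : ℝ) + 2) ^ (max E₁ 1)) ^ E₂ ≤ (2 * ((H : ℝ) + 2) ^ (max E₁ 1)) ^ (max E₂ 1) := by
      refine pow_le_pow_right₀ ?_ (le_max_left _ _)
      have : (1 : ℝ) ≤ ((H : ℝ) + 2) ^ (max E₁ 1) := one_le_pow₀ hH1
      linarith
    exact h1.trans ((pow_base H _ _).trans hb1)
  have hne : Polynomial.aeval (((1 / ξ : K)) : ℂ) (∏ l, Tg (g l)) ≠ 0 := by
    rw [hx, map_prod, Finset.prod_ne_zero_iff]
    intro l _
    refine ne _ _ ?_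
    have : ((g l : ℕ) : ℝ) ≤ H := by exact_mod_cast hgH l
    linarith
  -- multiplicativity
  have hcv : ∀ l b, Cvc (1 / (ξ : ℂ)) (F (g l) b) := by
    intro l b
    have h1 := (sys (g l)).size b
    set B : ℝ := ((g l : ℝ) + 2) ^ E₀ with hB
    have hB0 : 0 ≤ B := by positivity
    refine cvc_of_cv (Cv.of_bound (A := B) (B := B) ht0 hB0 ?_ fun m => ?_)
    · have h2 : B ≤ ((H : ℝ) + 2) ^ E₀ := by
        refine pow_le_pow_left₀ (by positivity) ?_ _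
        have : ((g l : ℕ) : ℝ) ≤ H := by exact_mod_cast hgH l
        linarith
      have h3 : ((H : ℝ) + 2) ^ E₀ < ((H : ℝ) + 2) ^ (E₀ + 2) := pow_lt_pow_right₀ (by linarith) (by omega)
      linarith
    · exact (h1 m).trans (le_of_eq (pow_succ' _ _))
  have hev : ∀ b : Fin N → σ, evc (1 / (ξ : ℂ)) (∏ l, F (g l) (b l)) = ∏ l, evc (1 / (ξ : ℂ)) (F (g l) (b l)) := by
    intro b
    exact Cvc.ev_prod Finset.univ (fun l => F (g l) (b l)) fun l _ => hcv l _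
  -- the indices
  let e : Fin (Fintype.card (Fin N → σ)) ≃ (Fin N → σ) := (Fintype.equivFin _).symm
  refine hE₂ (((H : ℝ) + 2) ^ (max E₁ 1)) (∏ l, Tg (g l)) (fun j => ∏ l, F (g l) (e j l)) (e.symm fun _ => b₀) K (1 / ξ) X
    hK hd (one_div_ne_zero hξ) (pt_inv hξ hPt) (hsys.reindex e) ?_ (hli.comp e e.injective) ?_ ?_ hne n
    (fun r j => algebraMap ℚ K (a r (e j))) ?_ ?_ hcard
  · simp only [Equiv.apply_symm_apply]
    exact Finset.prod_eq_one fun l _ => one _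
  · rw [hxn, one_div, inv_mul_le_iff₀ ht0, mul_one]
    exact hC
  · rw [hxn, div_pow, one_pow, mul_one_div, div_le_one (by positivity)]
    exact hXA
  · refine li_ext (a := fun r j => a r (e j)) ?_
    have h1 : LinearIndependent ℚ ((LinearEquiv.funCongrLeft ℚ ℚ e).toLinearMap ∘ a) :=
      ha.map' _ (LinearEquiv.ker _)
    exact h1
  · intro r
    refine Eq.trans ?_ (hrel r)
    rw [← Equiv.sum_comp e]
    refine Finset.sum_congr rfl fun j _ => ?_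
    rw [hx, hev]
    congr 1

theorem famC {r : ℕ} {h : Fin r → ℚ⟦X⟧} {T : Polynomial ℤ} {A : Fin r → Fin r → Polynomial ℤ} (hT : T ≠ 0)
    (hode : ∀ i, ps T * d⁄dX ℚ (h i) = ∑ j, ps (A i j) * h j)
    (hsize : ∃ C : ℝ, ∀ i m, |((coeff m (h i) : ℚ) : ℝ)| ≤ C ^ (m + 1))
    (hden : ∃ C : ℝ, ∀ m, ∃ d : ℕ, 0 < d ∧ (d : ℝ) ≤ C ^ (m + 1) ∧ ∀ i, ∀ j ≤ m, ∃ a : ℤ, (d : ℚ) * coeff j (h i) = a)
    (hgal : ∃ C : ℝ, ∀ m, ∃ d : ℕ, 0 < d ∧ (d : ℝ) ≤ C ^ (m + 1) ∧ ∀ s ≤ m, ∀ i j, ∃ H : Polynomial ℤ,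
      (d : Polynomial ℤ) * itm T A s i j = (s.factorial : Polynomial ℤ) * H)
    (hqu : QU0 T A) :
    ∃ R : ℕ, ∀ (δ : ℕ) (B₀ : Finset (Fin δ → Option (Fin r))), (fun _ => none) ∈ B₀ →
      (∀ g : (Fin δ → Option (Fin r)) → Polynomial ℚ, ∑ i ∈ B₀, (g i : ℚ⟦X⟧) * yw h i = 0 → ∀ i ∈ B₀, g i = 0) →
      ∃ B : Finset (Fin δ → Option (Fin r)), B₀ ⊆ B ∧
        (∃ C : ℝ, 1 ≤ C ∧ ∀ (b : Fin δ → Option (Fin r)) m, |((coeff m (yw h b : ℚ⟦X⟧) : ℚ) : ℝ)| ≤ C ^ (m + 1)) ∧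
        ∀ N d A : ℕ, ∃ E : ℕ, ∀ (H : ℕ) (K : IntermediateField ℚ ℂ) (ξ : K) (X : ℝ), FiniteDimensional ℚ K →
        Module.finrank ℚ K ≤ d → Pt K ξ X → ((H : ℝ) + 2) ^ E ≤ ‖(ξ : ℂ)‖ → X ≤ ‖(ξ : ℂ)‖ ^ A →
        ∀ g : Fin N → ℕ, SepR R g → (∀ l, g l ≤ H) → ∀ (n : ℕ) (a : Fin n → (Fin N → B × Fin (δ + 1)) → ℚ),
        LinearIndependent ℚ a → (∀ i, ∑ b, ((a i b : ℚ) : ℂ) *
          ∏ l, evc (1 / (ξ : ℂ)) (Fg (δ + 1) (fun β : B => yw h β.1) (g l) (b l)) = 0) →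
        2 * A * d * (Fintype.card (Fin N → B × Fin (δ + 1)) - n) ≤ Fintype.card (Fin N → B × Fin (δ + 1)) → False := by
  classical
  obtain ⟨q, C, hG⟩ := gsys_of hode hsize hden hgal
  obtain ⟨Ch, hCh⟩ := hsize
  obtain ⟨e, he, M₀, K, Φ, hΦc, hΦe, hΦd⟩ := hqu
  -- the radii
  set τ : ℝ := |K| + |Ch| + 1 with hτd
  have hτ1 : 1 ≤ τ := by
    have := abs_nonneg K
    have := abs_nonneg Ch
    linarith
  have hτ0 : 0 < τ := by linarith
  have hτe : τ ≤ τ ^ e := le_self_pow₀ hτ1 he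
  set τ' : ℝ := τ + 1 with hτ'd
  have hρρ : τ ^ e < τ' ^ e := pow_lt_pow_left₀ (by linarith) hτ0.le he
  obtain ⟨R, hR⟩ := exists_nat_gt (τ ^ e + τ' ^ e)
  refine ⟨R, fun δ B₀ hb₀ h0 => ?_⟩
  obtain ⟨C', hG'⟩ := gsys_tens (gsys_opt hG) δ
  have hyw : (fun b : Fin δ → Option (Fin r) => ∏ j, (fun o : Option (Fin r) => o.elim 1 h) (b j)) = fun b => yw h b := rfl
  rw [hyw] at hG'
  have hone : yw h (fun _ : Fin δ => none) = 1 := by
    unfold yw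
    exact Finset.prod_eq_one fun j _ => rfl
  obtain ⟨B, hBB, hLI, a, M, ha, hM⟩ := max_li' (fun b : Fin δ → Option (Fin r) => yw h b) B₀ h0
  refine ⟨B, hBB, ⟨C', hG'.one_le, hG'.size⟩, fun N d₁ A₁ => ?_⟩
  obtain ⟨q', C'', hG''⟩ := gsys_sub hG' (fun β : B => yw h β.1) (fun β => β.1) (fun β => rfl) a M hM
  have hmem1 : ∀ i, cx (h i) ∈ Cw (τ ^ e) := fun i =>
    Cw_mono (by
      have := abs_nonneg K
      linarith) (cx_mem (abs_nonneg Ch) fun m => (hCh i m).trans (by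
        rw [← abs_pow]
        exact le_abs_self _))
  have hmem : ∀ b : Fin δ → Option (Fin r), cx (yw h b : ℚ⟦X⟧) ∈ Cw (τ ^ e) := by
    intro b
    unfold yw
    rw [map_prod]
    refine Subring.prod_mem _ fun j _ => ?_
    rcases b j with _ | i
    · show cx 1 ∈ _
      rw [map_one]
      exact Subring.one_mem _
    · exact hmem1 i
  set Tc : Polynomial ℂ := T.map (Int.castRingHom ℂ) with hTc
  set Ac : Fin r → Fin r → Polynomial ℂ := fun i j => (A i j).map (Int.castRingHom ℂ) with hAc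
  have hTc0 : Tc ≠ 0 := (Polynomial.map_ne_zero_iff (Int.castRingHom ℂ).injective_int).2 hT
  have hQU : QU he τ Tc (AT (δ := δ) (A1 Ac)) := by
    refine qu_tens he δ (qu_one he ⟨M₀, Φ, fun i j k => mem_Cw_of_bound ?_ (hΦc i j k), hΦe, hΦd⟩)
    have := abs_nonneg Ch
    linarith
  -- the differential equation of the products
  have hodeC : ∀ i, (Tc : PowerSeries ℂ) * PowerSeries.derivative ℂ (cx (h i)) = ∑ j, (Ac i j : PowerSeries ℂ) * cx (h j) := by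
    intro i
    have h1 := congrArg cx (hode i)
    rw [map_mul, map_sum, cx_der, cx_ps] at h1
    rw [h1]
    refine Finset.sum_congr rfl fun j _ => ?_
    rw [map_mul, cx_ps]
  have hodeT : ∀ b : Fin δ → Option (Fin r), (Tc : PowerSeries ℂ) * PowerSeries.derivative ℂ (cx (yw h b)) =
      ∑ b', ((AT (δ := δ) (A1 Ac) b b' : Polynomial ℂ) : PowerSeries ℂ) * cx (yw h b') := by
    intro b
    have h1 := tens_der (δ := δ) (fun f : PowerSeries ℂ => PowerSeries.derivative ℂ f) (Derivation.map_one_eq_zero _)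
      (fun f g => by
        rw [Derivation.leibniz]
        rfl) (Tc : PowerSeries ℂ) 0
      (fun i l : Option (Fin r) => ((A1 Ac i l : Polynomial ℂ) : PowerSeries ℂ))
      (fun _ o => cx (o.elim 1 h)) (fun j o => by
        rw [zero_mul, zero_add, Fintype.sum_option]
        rcases o with _ | i
        · show _ * PowerSeries.derivative ℂ (cx 1) = ((0 : Polynomial ℂ) : PowerSeries ℂ) * _ +
            ∑ j, ((0 : Polynomial ℂ) : PowerSeries ℂ) * _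
          rw [map_one, Derivation.map_one_eq_zero]
          simp
        · show _ = ((0 : Polynomial ℂ) : PowerSeries ℂ) * _ + ∑ j, (Ac i j : PowerSeries ℂ) * cx (h j)
          rw [← hodeC i]
          simp) b
    have h2 : ∀ b : Fin δ → Option (Fin r), cx (yw h b) = ∏ j, cx ((b j).elim 1 h) := fun b => map_prod _ _ _
    rw [h2 b]
    refine h1.trans ?_
    rw [mul_zero, zero_mul, zero_add]
    refine Finset.sum_congr rfl fun b' _ => ?_
    rw [h2 b']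
    congr 1
    let f : Polynomial ℂ →+ PowerSeries ℂ := (Polynomial.coeToPowerSeries.ringHom (R := ℂ)).toAddMonoidHom
    exact (AT_map f (A1 Ac) b b').symm
  have hdisc : Disc (τ ^ e) (τ' ^ e) fun b : (B : Set (Fin δ → Option (Fin r))) => cx (yw h b.1) :=
    disc_of_qu he hτ0 (by linarith) (fun b => cx (yw h b)) hmem Tc hTc0 _ hodeT hQU
      (B : Set (Fin δ → Option (Fin r))) (by
      intro G hG
      refine li_cx (κ := (B : Set (Fin δ → Option (Fin r)))) ?_ G hG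
      exact hLI)
  obtain ⟨q₀, E₀, hsys⟩ := gsys_Fg hG'' δ
  obtain ⟨c, hc⟩ := Tg_neC (mul_ne_zero ha hT) hG''.degT
  obtain ⟨E, hE⟩ := gsys_shift hG''
  obtain ⟨E₁, hE₁⟩ := liC (F := Fg (δ + 1) (fun β : B => yw h β.1)) (Tg := Pool.Agent.Y120.GH.Tg q' (a * T)) (c := c)
    (b₀ := ((⟨fun _ => none, hBB hb₀⟩ : B), (0 : Fin (δ + 1)))) (by
      intro g
      show sf g (yw h fun _ : Fin δ => none) * yQ g ((0 : Fin (δ + 1)) : ℕ) = 1
      rw [hone]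
      have h1 : sf g 1 = 1 := by
        have := sf_nat g 1
        simpa using this
      rw [h1, one_mul]
      exact yQ_nil g) hsys hc N d₁ A₁
  refine ⟨E₁, fun H K' ξ X hK' hd hPt hHt hX g hg hgH => hE₁ H K' ξ X hK' hd hPt hHt hX g hgH ?_⟩
  refine li_shift (ρ := τ ^ e) (ρ' := τ' ^ e) (C := C'') (y := fun β : B => yw h β.1) (by positivity) hρρ
    (by have := hG''.one_le; linarith) (fun β => hmem _) hdisc hG''.size (fun g => ⟨((g : ℝ) + 2) ^ E, by positivity,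
      (hE g).size⟩) hR (δ + 1) N g (fun l => by exact_mod_cast hg.1 l) fun l l' hl => ?_
  rcases hg.2 l l' hl with h1 | h1
  · have h2 : (g l : ℝ) + R ≤ g l' := by exact_mod_cast h1
    rw [abs_sub_comm]
    exact le_trans (by linarith) (le_abs_self _)
  · have h2 : (g l' : ℝ) + R ≤ g l := by exact_mod_cast h1
    exact le_trans (by linarith) (le_abs_self _)

end Pool.Agent.Y547.AF
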