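import Pool.Agent.Y547.AF.Fam
import Pool.Agent.Y118.UL.Nor
import Pool.Agent.Y916.Af.Stm

/-!
# Project AF: the statement FAM
-/

set_option autoImplicit false
set_option maxHeartbeats 400000

open PowerSeries Pool.Agent.Y113 Pool.Agent.Y120.GF Pool.Agent.Y120.GH Pool.Agent.Y916.Al Pool.Agent.Y118.UL
  Pool.Agent.Y916.Af

namespace Pool.Agent.Y547.AF

lemma li_scale {ι : Type} {n : ℕ} {a : Fin n → ι → ℚ} (ha : LinearIndependent ℚ a) {F : ι → ℚ} (hF : ∀ b, F b ≠ 0) :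
    LinearIndependent ℚ (fun i b => a i b * F b) := by
  rw [Fintype.linearIndependent_iff] at ha ⊢
  intro c hc
  refine ha c ?_
  funext b
  have h1 := congrFun hc b
  simp only [Finset.sum_apply, Pi.smul_apply, smul_eq_mul, Pi.zero_apply] at h1 ⊢
  have h2 : (∑ i, c i * a i b) * F b = 0 := by
    rw [← h1, Finset.sum_mul]
    exact Finset.sum_congr rfl fun i _ => by ring
  exact (mul_eq_zero.1 h2).resolve_right (hF b)

lemma evc_yw {r δ : ℕ} {h : Fin r → ℚ⟦X⟧} {C : ℝ} (hC : 0 ≤ C)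
    (hh : ∀ j m, |((coeff m (h j) : ℚ) : ℝ)| ≤ C ^ (m + 1)) {z : ℂ} (hz : C < ‖z‖) (b : Fin δ → Option (Fin r)) :
    evc (1 / z) (yw h b) = yw (fun j => evc (1 / z) (h j)) b := by
  have hz0 : 0 < ‖z‖ := by linarith
  have hcv : ∀ o : Option (Fin r), Cvc (1 / z) (o.elim 1 h) := by
    rintro (_ | j)
    · exact Cvc.one
    · exact cvc_of_cv (Cv.of_bound (A := C) (B := C) hz0 hC hz fun m => (hh j m).trans (le_of_eq (pow_succ' _ _)))
  unfold yw
  rw [Cvc.ev_prod _ _ fun j _ => hcv _]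
  refine Finset.prod_congr rfl fun j _ => ?_
  rcases b j with _ | i
  · exact Pool.Agent.Y916.Al.ev_one
  · rfl

theorem t_fam : Pool.Agent.Y916.Af.S_fam := by
  classical
  intro r T A h hG
  obtain ⟨R, hR⟩ := famC hG.hT hG.hode hG.hsize hG.hden hG.hgal hG.hqu
  refine ⟨max R 1, le_max_right _ _, fun G hGR I hI δ => ?_⟩
  have hG1 : 1 ≤ G := (le_max_right _ _).trans hGR
  have hGR' : R ≤ G := (le_max_left _ _).trans hGR
  obtain ⟨B, hBB, ⟨C, hC1, hC⟩, hB⟩ := hR δ ((Mon δ I).image (wd r δ)) (by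
    rw [← wd_zero δ]
    refine Finset.mem_image_of_mem _ ?_
    rw [mem_Mon]
    simp) (li_B0 hI δ)
  refine ⟨B, ?_, fun N d A₁ => ?_⟩
  · rw [← Finset.card_image_of_injOn (wd_inj (r := r) (δ := δ) (I := I))]
    exact Finset.card_le_card hBB
  obtain ⟨C₀, hC₀⟩ := hG.hsize
  obtain ⟨E, hE⟩ := hB N d A₁
  obtain ⟨c, hc⟩ := pow_unbounded_of_one_lt (C + |C₀|) (show (1 : ℝ) < 2 by norm_num)
  refine ⟨(G + 1) * E + (G + 1 + c), ?_⟩
  intro H K ξ X hK hd hPt ht hX g hg hgH n a ha hrel hcard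
  have hGH : G * H + 2 ≤ (H + 2) ^ (G + 1) := by
    have h2 : G + 1 ≤ 2 ^ G := Nat.lt_two_pow_self
    have h3 : 2 ^ G ≤ (H + 2) ^ G := Nat.pow_le_pow_left (by omega) _
    rw [pow_succ]
    nlinarith
  have hGHR : ((G * H : ℕ) : ℝ) + 2 ≤ ((H : ℝ) + 2) ^ (G + 1) := by exact_mod_cast hGH
  have hH0 : (0 : ℝ) ≤ (H : ℝ) := by positivity
  have hH1 : (1 : ℝ) ≤ (H : ℝ) + 2 := by linarith
  have ht1 : (((G * H : ℕ) : ℝ) + 2) ^ E ≤ ‖(ξ : ℂ)‖ := by
    refine (pow_le_pow_left₀ (by positivity) hGHR _).trans ?_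
    rw [← pow_mul]
    exact (pow_le_pow_right₀ hH1 (by omega)).trans ht
  have ht2 : (((G * H : ℕ) : ℝ) + 2) * 2 ^ c ≤ ‖(ξ : ℂ)‖ := by
    refine le_trans ?_ ((pow_le_pow_right₀ hH1 (show G + 1 + c ≤ (G + 1) * E + (G + 1 + c) by omega)).trans ht)
    rw [pow_add _ (G + 1) c]
    exact mul_le_mul hGHR (pow_le_pow_left₀ (by norm_num) (by linarith) _) (by positivity) (by positivity)
  set g' : Fin N → ℕ := fun l => G * g l with hg'
  have hg'H : ∀ l, g' l ≤ G * H := fun l => Nat.mul_le_mul_left _ (hgH l).2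
  have hbig : ∀ l, ((g' l : ℕ) : ℝ) + (C + |C₀|) < ‖(ξ : ℂ)‖ := by
    intro l
    have h1 : ((g' l : ℕ) : ℝ) ≤ ((G * H : ℕ) : ℝ) := by exact_mod_cast hg'H l
    have h2 : (1 : ℝ) ≤ 2 ^ c := one_le_pow₀ (by norm_num)
    have h3 : (0 : ℝ) ≤ ((G * H : ℕ) : ℝ) := by positivity
    nlinarith
  have hsep : SepR R g' := by
    refine ⟨fun l => hGR'.trans (Nat.le_mul_of_pos_right _ (hgH l).1), fun l l' hll => ?_⟩
    have h1 : g l ≠ g l' := fun h => hll (hg h)
    rcases Nat.lt_or_gt_of_ne h1 with h2 | h2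
    · left
      have : G * (g l + 1) ≤ G * g l' := Nat.mul_le_mul_left _ h2
      rw [mul_add, mul_one] at this
      show G * g l + R ≤ G * g l'
      omega
    · right
      have : G * (g l' + 1) ≤ G * g l := Nat.mul_le_mul_left _ h2
      rw [mul_add, mul_one] at this
      show G * g l' + R ≤ G * g l
      omega
  refine hE (G * H) K ξ X hK hd hPt ht1 hX g' hsep hg'H n
    (fun i b => a i b * ((∏ l, ((b l).2 : ℕ).factorial : ℕ) : ℚ)) (li_scale ha fun b => ?_) (fun i => ?_) hcard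
  · have h1 : (∏ l, ((b l).2 : ℕ).factorial : ℕ) ≠ 0 := Finset.prod_ne_zero_iff.2 fun l _ => Nat.factorial_ne_zero _
    exact_mod_cast h1
  · refine Eq.trans ?_ (hrel i)
    refine Finset.sum_congr rfl fun b _ => ?_
    have h1 : ∀ l, evc (1 / (ξ : ℂ)) (Fg (δ + 1) (fun β : B => yw h β.1) (g' l) (b l)) =
        yw (fun j => vc G h ξ (g l) (some j)) (b l).1.1 *
          (1 / (((b l).2 : ℕ).factorial : ℂ) * vc G h ξ (g l) none ^ ((b l).2 : ℕ)) := by
      intro l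
      have hb := hbig l
      rw [evc_Fg hC1 (fun β m => hC β.1 m) (by
        have := abs_nonneg C₀
        linarith) (b l)]
      have h2 : |C₀| < ‖(ξ : ℂ) - ((g' l : ℕ) : ℂ)‖ := by
        have h3 := norm_sub_norm_le (ξ : ℂ) ((g' l : ℕ) : ℂ)
        rw [Complex.norm_natCast] at h3
        linarith
      rw [evc_yw (C := |C₀|) (abs_nonneg _) (fun j m => (hC₀ j m).trans (by
        rw [← abs_pow]
        exact le_abs_self _)) h2]
      rfl
    simp only [h1]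
    rw [Rat.cast_mul, mul_assoc]
    congr 1
    have h4 : (((∏ l, ((b l).2 : ℕ).factorial : ℕ) : ℚ) : ℂ) = ∏ l, (((b l).2 : ℕ).factorial : ℂ) := by
      push_cast
      rfl
    rw [h4, ← Finset.prod_mul_distrib]
    refine Finset.prod_congr rfl fun l _ => ?_
    have h5 : ((((b l).2 : ℕ).factorial : ℕ) : ℂ) ≠ 0 := by
      exact_mod_cast Nat.factorial_ne_zero _
    field_simp

end Pool.Agent.Y547.AF
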